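import Mathlib

set_option autoImplicit false

/-! Project POT: uniqueness of base-B digits, for finitely supported functions. -/

namespace Pool.Agent.W346.POT

theorem inj_aux (B N : ℕ) : ∀ f g : ℕ → ℕ, (∀ k, f k < B) → (∀ k, g k < B) →
    ∑ k ∈ Finset.range N, f k * B ^ k = ∑ k ∈ Finset.range N, g k * B ^ k →
    ∀ k < N, f k = g k := by
  induction N with
  | zero => intro f g _ _ _ k hk; omega
  | succ N ih =>
    intro f g hf hg h
    have hB : 0 < B := lt_of_le_of_lt (Nat.zero_le _) (hf 0)
    have e : ∀ f : ℕ → ℕ, ∑ k ∈ Finset.range (N + 1), f k * B ^ k =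
        B * (∑ k ∈ Finset.range N, f (k + 1) * B ^ k) + f 0 := by
      intro f
      rw [Finset.sum_range_succ', pow_zero, mul_one, Finset.mul_sum]
      congr 1
      exact Finset.sum_congr rfl fun k _ => by ring
    rw [e f, e g] at h
    have h0 : f 0 = g 0 := by
      have := congrArg (· % B) h
      simpa [Nat.mul_add_mod, Nat.mod_eq_of_lt (hf 0), Nat.mod_eq_of_lt (hg 0)] using this
    have h1 : ∑ k ∈ Finset.range N, f (k + 1) * B ^ k =
        ∑ k ∈ Finset.range N, g (k + 1) * B ^ k := by
      rw [h0] at h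
      exact Nat.eq_of_mul_eq_mul_left hB (by omega)
    have h2 := ih (fun k => f (k + 1)) (fun k => g (k + 1)) (fun k => hf _) (fun k => hg _) h1
    intro k hk
    cases k with
    | zero => exact h0
    | succ k => exact h2 k (by omega)

theorem inj (B : ℕ) (s t : ℕ →₀ ℕ) (hs : ∀ k, s k < B) (ht : ∀ k, t k < B)
    (h : (s.sum fun k n => n * B ^ k) = (t.sum fun k n => n * B ^ k)) : s = t := by
  classical
  set N := (s.support ∪ t.support).sup id + 1 with hN
  have hsub : ∀ u : ℕ →₀ ℕ, u.support ⊆ s.support ∪ t.support →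
      (u.sum fun k n => n * B ^ k) = ∑ k ∈ Finset.range N, u k * B ^ k := by
    intro u hu
    refine Finsupp.sum_of_support_subset _ ?_ _ (fun k _ => by simp)
    intro k hk
    rw [Finset.mem_range, hN]
    exact Nat.lt_succ_of_le (Finset.le_sup (f := id) (hu hk))
  rw [hsub s Finset.subset_union_left, hsub t Finset.subset_union_right] at h
  ext k
  by_cases hk : k < N
  · exact inj_aux B N s t hs ht h k hk
  · have h1 : ∀ u : ℕ →₀ ℕ, u.support ⊆ s.support ∪ t.support → u k = 0 := by
      intro u hu
      by_contra hne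
      apply hk
      rw [hN]
      exact Nat.lt_succ_of_le (Finset.le_sup (f := id) (hu (Finsupp.mem_support_iff.2 hne)))
    rw [h1 s Finset.subset_union_left, h1 t Finset.subset_union_right]

end Pool.Agent.W346.POT
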